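import Mathlib

/-!
# Philippon's inequality over a rational function field `k(t)`: the main inequality
-/

set_option autoImplicit false
set_option linter.unusedSectionVars false

namespace H488.PF

open Polynomial UniqueFactorizationMonoid

variable {k : Type*} [Field k] [DecidableEq k]

/-- The height of a rational function: the maximum of the degrees of its numerator and its
denominator. -/
noncomputable def ht (x : RatFunc k) : ℕ := max x.num.natDegree x.denom.natDegree

/-- The degree of the numerator of `x`: the sum of `v_P(x) deg P` over the monic primes `P` of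
`k[t]` with `v_P(x) > 0`. -/
noncomputable def numDeg (x : RatFunc k) : ℕ := x.num.natDegree

/-- The sum of the degrees of the monic primes `P` of `k[t]` which divide the numerator of `x`. -/
noncomputable def radDeg (x : RatFunc k) : ℕ := (radical x.num).natDegree

/-- Philippon's inequality over `k(t)`. -/
def Ineq (B : ℕ) (α β ε : ℝ) (x y : RatFunc k) : Prop :=
  (numDeg (x * y ^ B + 1) : ℝ) ≤ α * B * ht x + ε * B * ht y
    + B * (α * B + ε) * (β + radDeg (x * y ^ B + 1))

lemma num_assoc {N D : k[X]} (hD : D ≠ 0) (h : IsCoprime N D) {z : RatFunc k}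
    (hz : z = algebraMap _ _ N / algebraMap _ _ D) : Associated z.num N := by
  have e := (RatFunc.num_mul_eq_mul_denom_iff (x := z) (p := N) hD).2 hz
  have hc := RatFunc.isCoprime_num_denom z
  apply associated_of_dvd_dvd
  · exact hc.dvd_of_dvd_mul_right (e ▸ dvd_mul_right _ _)
  · exact h.dvd_of_dvd_mul_right (e.symm ▸ dvd_mul_right _ _)

lemma denom_assoc {N D : k[X]} (hD : D ≠ 0) (h : IsCoprime N D) {z : RatFunc k}
    (hz : z = algebraMap _ _ N / algebraMap _ _ D) : Associated z.denom D := by
  have e := (RatFunc.num_mul_eq_mul_denom_iff (x := z) (p := N) hD).2 hz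
  have hc := RatFunc.isCoprime_num_denom z
  apply associated_of_dvd_dvd
  · exact hc.symm.dvd_of_dvd_mul_left (e.symm ▸ dvd_mul_left _ _)
  · exact h.symm.dvd_of_dvd_mul_left (e ▸ dvd_mul_left _ _)

lemma natDegree_of_assoc {p q : k[X]} (h : Associated p q) : p.natDegree = q.natDegree :=
  natDegree_eq_of_degree_eq (degree_eq_degree_of_associated h)

lemma num_add_one (z : RatFunc k) : Associated (z + 1).num (z.num + z.denom) := by
  have hd := RatFunc.denom_ne_zero z
  have hd' : (algebraMap k[X] (RatFunc k) z.denom) ≠ 0 := RatFunc.algebraMap_ne_zero hd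
  refine num_assoc hd ?_ (D := z.denom) ?_
  · have h := (RatFunc.isCoprime_num_denom z).add_mul_right_left 1
    simpa using h
  · conv_lhs => rw [← RatFunc.num_div_denom z]
    rw [map_add, add_div, div_self hd']

lemma mul_pow_rel (x y : RatFunc k) (B : ℕ) :
    (x * y ^ B).num * (x.denom * y.denom ^ B) = (x.num * y.num ^ B) * (x * y ^ B).denom := by
  have hD : x.denom * y.denom ^ B ≠ 0 :=
    mul_ne_zero (RatFunc.denom_ne_zero x) (pow_ne_zero _ (RatFunc.denom_ne_zero y))
  refine (RatFunc.num_mul_eq_mul_denom_iff hD).2 ?_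
  conv_lhs => rw [← RatFunc.num_div_denom x, ← RatFunc.num_div_denom y]
  rw [map_mul, map_mul, map_pow, map_pow, div_pow, div_mul_div_comm]

/-- the primes of `x y ^ B` which do not occur in `x` have a multiplicity at least `B` -/
lemma prime_pow_dvd {x y : RatFunc k} (b : ℕ) {p : k[X]} (hp : Prime p)
    (h : p ∣ (x * y ^ (b + 1)).num * (x * y ^ (b + 1)).denom) :
    p ^ (b + 1) ∣ ((x * y ^ (b + 1)).num * (x * y ^ (b + 1)).denom)
      * (x.num * x.denom) ^ b := by
  set z := x * y ^ (b + 1) with hz
  have rel := mul_pow_rel x y (b + 1)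
  rw [← hz] at rel
  have cz := RatFunc.isCoprime_num_denom z
  have cy := RatFunc.isCoprime_num_denom y
  by_cases hx : p ∣ x.num * x.denom
  · rw [pow_succ']
    exact mul_dvd_mul h (pow_dvd_pow_of_dvd hx b)
  · have ha : ¬ p ∣ x.num := fun h' => hx (h'.mul_right _)
    have hb : ¬ p ∣ x.denom := fun h' => hx (h'.mul_left _)
    refine Dvd.dvd.mul_right ?_ _
    rcases hp.dvd_or_dvd h with h1 | h1
    · -- p ∣ num z
      have h2 : z.num ∣ x.num * y.num ^ (b + 1) :=
        cz.dvd_of_dvd_mul_right (rel ▸ dvd_mul_right _ _)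
      have h3 : p ∣ y.num := by
        rcases hp.dvd_or_dvd (h1.trans h2) with h4 | h4
        · exact absurd h4 ha
        · exact hp.dvd_of_dvd_pow h4
      have h5 : y.num ^ (b + 1) ∣ z.num * x.denom := by
        have h6 : y.num ^ (b + 1) ∣ (z.num * x.denom) * y.denom ^ (b + 1) := by
          have : (z.num * x.denom) * y.denom ^ (b + 1)
              = y.num ^ (b + 1) * (x.num * z.denom) := by
            rw [mul_assoc, rel]; ring
          rw [this]
          exact dvd_mul_right _ _
        exact (IsCoprime.pow cy).dvd_of_dvd_mul_right h6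
      have h7 : p ^ (b + 1) ∣ z.num * x.denom := (pow_dvd_pow_of_dvd h3 _).trans h5
      have h8 : IsCoprime (p ^ (b + 1)) x.denom :=
        ((hp.irreducible.coprime_iff_not_dvd).2 hb).pow_left
      exact (h8.dvd_of_dvd_mul_right h7).mul_right _
    · have h2 : z.denom ∣ x.denom * y.denom ^ (b + 1) :=
        cz.symm.dvd_of_dvd_mul_left (rel.symm ▸ dvd_mul_left _ _)
      have h3 : p ∣ y.denom := by
        rcases hp.dvd_or_dvd (h1.trans h2) with h4 | h4
        · exact absurd h4 hb
        · exact hp.dvd_of_dvd_pow h4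
      have h5 : y.denom ^ (b + 1) ∣ x.num * z.denom := by
        have h6 : y.denom ^ (b + 1) ∣ (x.num * z.denom) * y.num ^ (b + 1) := by
          have : (x.num * z.denom) * y.num ^ (b + 1)
              = y.denom ^ (b + 1) * (z.num * x.denom) := by
            calc (x.num * z.denom) * y.num ^ (b + 1)
                = (x.num * y.num ^ (b + 1)) * z.denom := by ring
              _ = z.num * (x.denom * y.denom ^ (b + 1)) := rel.symm
              _ = _ := by ring
          rw [this]
          exact dvd_mul_right _ _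
        exact (IsCoprime.pow cy.symm).dvd_of_dvd_mul_right h6
      have h7 : p ^ (b + 1) ∣ x.num * z.denom := (pow_dvd_pow_of_dvd h3 _).trans h5
      have h8 : IsCoprime (p ^ (b + 1)) x.num :=
        ((hp.irreducible.coprime_iff_not_dvd).2 ha).pow_left
      exact (h8.dvd_of_dvd_mul_left h7).mul_left _

/-- if `p ^ m` divides `c` for all prime factors `p` of `a`, then so does `rad(a) ^ m` -/
lemma radical_pow_dvd' {a c : k[X]} (m : ℕ) (h : ∀ p : k[X], Prime p → p ∣ a → p ^ m ∣ c) :
    radical a ^ m ∣ c := by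
  rw [radical, ← Finset.prod_pow]
  apply Finset.prod_dvd_of_coprime
  · intro p hp q hq hpq
    have := pairwise_primeFactors_isRelPrime (a := a) hp hq hpq
    exact (isRelPrime_iff_isCoprime.1 this).pow
  · intro p hp
    have hp' := mem_primeFactors.1 hp
    exact h p (prime_of_normalized_factor p hp') (dvd_of_mem_normalizedFactors hp')

/-- **The main inequality.** -/
theorem main_ineq (b : ℕ) {x y : RatFunc k} (hx : x ≠ 0) (hy : y ≠ 0)
    (hne : x * y ^ (b + 1) ≠ -1)
    (hsep : derivative (x * y ^ (b + 1)).num ≠ 0 ∨ derivative (x * y ^ (b + 1)).denom ≠ 0) :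
    (b + 1) * (ht (x * y ^ (b + 1)) + 1) ≤ 2 * ht (x * y ^ (b + 1)) + 2 * b * ht x
      + (b + 1) * radDeg (x * y ^ (b + 1) + 1) := by
  set z := x * y ^ (b + 1) with hz
  have hz0 : z ≠ 0 := mul_ne_zero hx (pow_ne_zero _ hy)
  have hu : z.num ≠ 0 := RatFunc.num_ne_zero hz0
  have hv : z.denom ≠ 0 := RatFunc.denom_ne_zero z
  have cz := RatFunc.isCoprime_num_denom z
  have hzn : z + 1 ≠ 0 := fun h => hne (eq_neg_of_add_eq_zero_left h)
  have hN : Associated (z + 1).num (z.num + z.denom) := num_add_one z
  have hN0 : z.num + z.denom ≠ 0 := by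
    intro h
    rw [h] at hN
    exact RatFunc.num_ne_zero hzn (associated_zero_iff_eq_zero _ |>.1 hN)
  have abc := Polynomial.abc hu hv (neg_ne_zero.2 hN0) cz (by ring)
  rcases abc with abc | abc
  swap
  · rcases hsep with h | h
    · exact absurd abc.1 h
    · exact absurd abc.2.1 h
  have hM : ht z + 1 ≤ (radical (z.num * z.denom * -(z.num + z.denom))).natDegree := by
    unfold ht
    rcases max_choice z.num.natDegree z.denom.natDegree with h | h
    · rw [h]; exact abc.1
    · rw [h]; exact abc.2.1
  have hrad : (radical (z.num * z.denom * -(z.num + z.denom))).natDegree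
      ≤ (radical (z.num * z.denom)).natDegree + radDeg (z + 1) := by
    have h1 : radical (z.num * z.denom * -(z.num + z.denom))
        ∣ radical (z.num * z.denom) * radical (-(z.num + z.denom)) := radical_mul_dvd
    have h2 : radical (-(z.num + z.denom)) = radical ((z + 1).num) := by
      rw [UniqueFactorizationDomain.radical_neg]
      exact radical_eq_of_associated hN.symm
    rw [h2] at h1
    have h3 := natDegree_le_of_dvd h1 (mul_ne_zero radical_ne_zero radical_ne_zero)
    rw [natDegree_mul radical_ne_zero radical_ne_zero] at h3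
    exact h3
  have hR : radical (z.num * z.denom) ^ (b + 1)
      ∣ (z.num * z.denom) * (x.num * x.denom) ^ b :=
    radical_pow_dvd' (b + 1) (fun p hp hpd => prime_pow_dvd b hp hpd)
  have hW : x.num * x.denom ≠ 0 := mul_ne_zero (RatFunc.num_ne_zero hx) (RatFunc.denom_ne_zero x)
  have hdeg := natDegree_le_of_dvd hR
    (mul_ne_zero (mul_ne_zero hu hv) (pow_ne_zero _ hW))
  rw [natDegree_pow, natDegree_mul (mul_ne_zero hu hv) (pow_ne_zero _ hW), natDegree_mul hu hv,
    natDegree_pow, natDegree_mul (RatFunc.num_ne_zero hx) (RatFunc.denom_ne_zero x)] at hdeg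
  have e1 : z.num.natDegree ≤ ht z := le_max_left _ _
  have e2 : z.denom.natDegree ≤ ht z := le_max_right _ _
  have e3 : x.num.natDegree ≤ ht x := le_max_left _ _
  have e4 : x.denom.natDegree ≤ ht x := le_max_right _ _
  have e5 : b * (x.num.natDegree + x.denom.natDegree) ≤ b * (2 * ht x) :=
    Nat.mul_le_mul_left _ (by omega)
  have e6 : (b + 1) * (ht z + 1) ≤ (b + 1) * ((radical (z.num * z.denom)).natDegree
      + radDeg (z + 1)) := Nat.mul_le_mul_left _ (hM.trans hrad)
  nlinarith [e1, e2, e5, e6, hdeg]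

lemma numDeg_le (z : RatFunc k) : numDeg (z + 1) ≤ ht z := by
  unfold numDeg ht
  rw [natDegree_of_assoc (num_add_one z)]
  exact natDegree_add_le _ _

lemma ht_mul_pow_le (b : ℕ) {x y : RatFunc k} (hx : x ≠ 0) (hy : y ≠ 0) :
    ht (x * y ^ b) ≤ ht x + b * ht y := by
  have rel := mul_pow_rel x y b
  set z := x * y ^ b with hz
  have cz := RatFunc.isCoprime_num_denom z
  have h1 : z.num ∣ x.num * y.num ^ b :=
    cz.dvd_of_dvd_mul_right (rel ▸ dvd_mul_right _ _)
  have h2 : z.denom ∣ x.denom * y.denom ^ b :=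
    cz.symm.dvd_of_dvd_mul_left (rel.symm ▸ dvd_mul_left _ _)
  have hn : x.num * y.num ^ b ≠ 0 :=
    mul_ne_zero (RatFunc.num_ne_zero hx) (pow_ne_zero _ (RatFunc.num_ne_zero hy))
  have hd : x.denom * y.denom ^ b ≠ 0 :=
    mul_ne_zero (RatFunc.denom_ne_zero x) (pow_ne_zero _ (RatFunc.denom_ne_zero y))
  have e1 := natDegree_le_of_dvd h1 hn
  have e2 := natDegree_le_of_dvd h2 hd
  rw [natDegree_mul (RatFunc.num_ne_zero hx) (pow_ne_zero _ (RatFunc.num_ne_zero hy)),
    natDegree_pow] at e1
  rw [natDegree_mul (RatFunc.denom_ne_zero x) (pow_ne_zero _ (RatFunc.denom_ne_zero y)),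
    natDegree_pow] at e2
  have f1 : x.num.natDegree ≤ ht x := le_max_left _ _
  have f2 : x.denom.natDegree ≤ ht x := le_max_right _ _
  have f3 : b * y.num.natDegree ≤ b * ht y := Nat.mul_le_mul_left _ (le_max_left _ _)
  have f4 : b * y.denom.natDegree ≤ b * ht y := Nat.mul_le_mul_left _ (le_max_right _ _)
  exact max_le (by omega) (by omega)

end H488.PF
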