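import Pool.Agent.H488.PF.Forms

/-!
# The extremal pairs over `k(t)`
-/

set_option autoImplicit false
set_option linter.unusedSectionVars false

namespace H488.PF

open Polynomial UniqueFactorizationMonoid

variable {k : Type*} [Field k] [DecidableEq k]

/-- the form of degree `b` which belongs to the polynomial `f`, at polynomials `P, Q` -/
noncomputable def hom (b : ℕ) (f P Q : k[X]) : k[X] :=
  ∑ i ∈ Finset.range (b + 1), C (f.coeff i) * P ^ i * Q ^ (b - i)

lemma hom_natDegree {b m : ℕ} (f : k[X]) {P Q : k[X]} (hP : P.natDegree ≤ m)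
    (hQ : Q.natDegree ≤ m) : (hom b f P Q).natDegree ≤ b * m := by
  unfold hom
  apply natDegree_sum_le_of_forall_le
  intro i hi
  rw [Finset.mem_range] at hi
  have h1 : (C (f.coeff i) * P ^ i).natDegree ≤ i * m :=
    (natDegree_C_mul_le _ _).trans (natDegree_pow_le.trans (Nat.mul_le_mul_left _ hP))
  have h2 : (Q ^ (b - i)).natDegree ≤ (b - i) * m :=
    natDegree_pow_le.trans (Nat.mul_le_mul_left _ hQ)
  have h3 : i * m + (b - i) * m = b * m := by
    rw [← Nat.add_mul]; congr 1; omega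
  exact natDegree_mul_le.trans (by omega)

lemma hom_map (b : ℕ) {f : k[X]} (hf : f.natDegree ≤ b) (P Q : k[X]) (hQ : Q ≠ 0) :
    algebraMap k[X] (RatFunc k) (hom b f P Q)
      = (algebraMap k[X] (RatFunc k) Q) ^ b
        * aeval ((algebraMap k[X] (RatFunc k) P) / (algebraMap k[X] (RatFunc k) Q)) f := by
  have hQ' : algebraMap k[X] (RatFunc k) Q ≠ 0 := RatFunc.algebraMap_ne_zero hQ
  unfold hom
  rw [aeval_eq_sum_range' (n := b + 1) (by omega), map_sum, Finset.mul_sum]
  apply Finset.sum_congr rfl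
  intro i hi
  rw [Finset.mem_range] at hi
  rw [map_mul, map_mul, map_pow, map_pow, div_pow, Algebra.smul_def]
  have h1 : algebraMap k[X] (RatFunc k) (C (f.coeff i)) = algebraMap k (RatFunc k) (f.coeff i) := by
    rw [RatFunc.algebraMap_C, RatFunc.algebraMap_eq_C]
  rw [h1]
  have h2 : (algebraMap k[X] (RatFunc k) Q) ^ b
      = (algebraMap k[X] (RatFunc k) Q) ^ (b - i) * (algebraMap k[X] (RatFunc k) Q) ^ i := by
    rw [← pow_add]; congr 1; omega
  rw [h2]
  field_simp

/-- The homogeneous identity. -/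
lemma hom_identity {b : ℕ} {f g : k[X]} (hf : f.natDegree ≤ b) (hg : g.natDegree ≤ b)
    (hL : L k b = X ^ (b + 2) * f - g) {P Q : k[X]} (hQ : Q ≠ 0) :
    (P + Q) ^ (2 * b + 1) * (P - Q) = P ^ (b + 2) * hom b f P Q - Q ^ (b + 2) * hom b g P Q := by
  have hQ' : algebraMap k[X] (RatFunc k) Q ≠ 0 := RatFunc.algebraMap_ne_zero hQ
  apply RatFunc.algebraMap_injective k
  rw [map_sub, map_mul, map_mul, map_mul, map_pow, map_pow, map_pow, map_add, map_sub,
    hom_map b hf P Q hQ, hom_map b hg P Q hQ]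
  have h := congrArg (aeval ((algebraMap k[X] (RatFunc k) P) / (algebraMap k[X] (RatFunc k) Q))) hL
  unfold L at h
  simp only [map_mul, map_sub, map_add, map_pow, aeval_X, map_one] at h
  generalize aeval ((algebraMap k[X] (RatFunc k) P) / (algebraMap k[X] (RatFunc k) Q)) f = F at *
  generalize aeval ((algebraMap k[X] (RatFunc k) P) / (algebraMap k[X] (RatFunc k) Q)) g = G at *
  generalize algebraMap k[X] (RatFunc k) P = p at *
  generalize algebraMap k[X] (RatFunc k) Q = q at *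
  have h1 : (p + q) ^ (2 * b + 1) * (p - q)
      = q ^ (2 * b + 2) * ((p / q + 1) ^ (2 * b + 1) * (p / q - 1)) := by
    have e1 : p + q = q * (p / q + 1) := by field_simp
    have e2 : p - q = q * (p / q - 1) := by field_simp
    rw [e1, e2, mul_pow]; ring
  rw [h1, h]
  have h2 : p ^ (b + 2) = q ^ (b + 2) * (p / q) ^ (b + 2) := by
    rw [div_pow]; field_simp
  rw [h2]
  ring

lemma dvd_hom_sub (b : ℕ) (g P Q : k[X]) (s : k) :
    (P - C s * Q) ∣ hom b g P Q - C (∑ i ∈ Finset.range (b + 1), g.coeff i * s ^ i) * Q ^ b := by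
  unfold hom
  rw [map_sum, Finset.sum_mul, ← Finset.sum_sub_distrib]
  apply Finset.dvd_sum
  intro i hi
  rw [Finset.mem_range] at hi
  have h1 : C (g.coeff i) * P ^ i * Q ^ (b - i) - C (g.coeff i * s ^ i) * Q ^ b
      = (C (g.coeff i) * Q ^ (b - i)) * (P ^ i - (C s * Q) ^ i) := by
    have h2 : Q ^ b = Q ^ (b - i) * Q ^ i := by rw [← pow_add]; congr 1; omega
    rw [h2, C_mul, C_pow, mul_pow]; ring
  rw [h1]
  exact (sub_dvd_pow_sub_pow _ _ i).mul_left _

lemma sum_eq_eval {b : ℕ} {g : k[X]} (hg : g.natDegree ≤ b) (s : k) :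
    ∑ i ∈ Finset.range (b + 1), g.coeff i * s ^ i = g.eval s :=
  (eval_eq_sum_range' (by omega) s).symm

lemma coprime_hom {b : ℕ} {g : k[X]} (hg : g.natDegree ≤ b) {s : k} (hs : g.eval s ≠ 0)
    {P Q : k[X]} (hc : IsCoprime (P - C s * Q) Q) : IsCoprime (P - C s * Q) (hom b g P Q) := by
  obtain ⟨c, hc'⟩ := dvd_hom_sub b g P Q s
  rw [sum_eq_eval hg] at hc'
  have h1 : hom b g P Q = C (g.eval s) * Q ^ b + (P - C s * Q) * c := by
    rw [← hc']; ring
  rw [h1]
  have h2 : IsCoprime (P - C s * Q) (C (g.eval s) * Q ^ b) := by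
    exact (isCoprime_mul_unit_left_right (isUnit_C.2 (isUnit_iff_ne_zero.2 hs)) _ _).2 hc.pow_right
  exact h2.add_mul_left_right c

lemma ht_le_of {a d : k[X]} (hd : d ≠ 0) {m : ℕ} (h1 : a.natDegree ≤ m)
    (h2 : d.natDegree ≤ m) {x : RatFunc k} (hx : x = algebraMap _ _ a / algebraMap _ _ d)
    (hx0 : x ≠ 0) : ht x ≤ m := by
  have ha : a ≠ 0 := by
    rintro rfl
    rw [map_zero, zero_div] at hx
    exact hx0 hx
  have e := (RatFunc.num_mul_eq_mul_denom_iff (x := x) (p := a) hd).2 hx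
  have hc := RatFunc.isCoprime_num_denom x
  have d1 : x.num ∣ a := hc.dvd_of_dvd_mul_right (e ▸ dvd_mul_right _ _)
  have d2 : x.denom ∣ d := hc.symm.dvd_of_dvd_mul_left (e.symm ▸ dvd_mul_left _ _)
  exact max_le ((natDegree_le_of_dvd d1 ha).trans h1) ((natDegree_le_of_dvd d2 hd).trans h2)

lemma radDeg_le_two {z : RatFunc k} {N : k[X]} (hN : N ≠ 0) (h : Associated z.num N) {n : ℕ}
    (hn : N ∣ (X * (X - 1)) ^ n) : radDeg z ≤ 2 := by
  unfold radDeg
  rw [radical_eq_of_associated h]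
  have h1 : radical N ∣ X * (X - 1) := (exists_dvd_pow_iff_radical_dvd hN).1 ⟨n, hn⟩
  have hX1 : (X - 1 : k[X]) ≠ 0 := by
    have := X_sub_C_ne_zero (R := k) 1
    rwa [C_1] at this
  have h2 := natDegree_le_of_dvd h1 (mul_ne_zero X_ne_zero hX1)
  have h3 : (X - 1 : k[X]).natDegree = 1 := by
    have := natDegree_X_sub_C (R := k) 1
    rwa [C_1] at this
  rw [natDegree_mul X_ne_zero hX1, natDegree_X, h3] at h2
  exact h2

/-- **The extremal pairs.** -/
theorem extremal [CharZero k] (b : ℕ) {m : ℕ} (hm : 0 < m) : ∃ x y : RatFunc k, x ≠ 0 ∧ y ≠ 0 ∧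
    x * y ^ (b + 2) ≠ 1 ∧ x * y ^ (b + 2) ≠ -1 ∧ ht x ≤ b * m ∧ ht y ≤ m ∧
    numDeg (x * y ^ (b + 2) + 1) = (2 * b + 2) * m ∧ radDeg (x * y ^ (b + 2) + 1) ≤ 2 := by
  obtain ⟨f, g, hf, hg, hL, hf1, hg1, hg2⟩ := exists_forms (k := k) b
  have h2k : (2 : k) ≠ 0 := two_ne_zero
  set E : k[X] := X ^ m with hE
  set F : k[X] := (X - 1) ^ m with hF
  set P : k[X] := F + E with hP
  set Q : k[X] := F - E with hQ
  have hX1 : (X - 1 : k[X]) ≠ 0 := by
    have := X_sub_C_ne_zero (R := k) 1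
    rwa [C_1] at this
  have hX1d : (X - 1 : k[X]).natDegree = 1 := by
    have := natDegree_X_sub_C (R := k) 1
    rwa [C_1] at this
  have hE0 : E ≠ 0 := pow_ne_zero _ X_ne_zero
  have hF0 : F ≠ 0 := pow_ne_zero _ hX1
  have hEd : E.natDegree = m := natDegree_X_pow m
  have hFd : F.natDegree = m := by rw [hF, natDegree_pow, hX1d, mul_one]
  have hPd : P.natDegree ≤ m := (natDegree_add_le _ _).trans (by rw [hEd, hFd, max_self])
  have hQd : Q.natDegree ≤ m := (natDegree_sub_le _ _).trans (by rw [hEd, hFd, max_self])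
  -- coprimality
  have hcop : IsCoprime (X : k[X]) (X - 1) := ⟨1, -1, by ring⟩
  have hEF : IsCoprime E F := hcop.pow
  have hu2 : IsUnit (C (2 : k)) := isUnit_C.2 (isUnit_iff_ne_zero.2 h2k)
  have hPpQ : P + Q = C 2 * F := by
    have h2C : (C (2 : k) : k[X]) = 2 := map_ofNat C 2
    rw [hP, hQ, h2C]; ring
  have hPmQ : P - Q = C 2 * E := by
    have h2C : (C (2 : k) : k[X]) = 2 := map_ofNat C 2
    rw [hP, hQ, h2C]; ring
  have cFQ : IsCoprime F Q := by
    have : IsCoprime F (-E + F * 1) := hEF.symm.neg_right.add_mul_left_right 1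
    have h' : Q = -E + F * 1 := by rw [hQ]; ring
    rw [h']; exact this
  have cEQ : IsCoprime E Q := by
    have : IsCoprime E (F + E * (-1)) := hEF.add_mul_left_right (-1)
    have h' : Q = F + E * (-1) := by rw [hQ]; ring
    rw [h']; exact this
  have c1 : IsCoprime (P + Q) Q := by rw [hPpQ]; exact (isCoprime_mul_unit_left_left hu2 _ _).2 cFQ
  have c2 : IsCoprime (P - Q) Q := by rw [hPmQ]; exact (isCoprime_mul_unit_left_left hu2 _ _).2 cEQ
  -- the value at `0`
  set δ : k := (-1) ^ m with hδ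
  have hδ0 : δ ≠ 0 := pow_ne_zero _ (neg_ne_zero.2 one_ne_zero)
  have ev0E : E.eval 0 = 0 := by rw [hE, eval_pow, eval_X, zero_pow hm.ne']
  have ev0F : F.eval 0 = δ := by rw [hF, eval_pow, eval_sub, eval_X, eval_one, zero_sub]
  have ev0P : P.eval 0 = δ := by rw [hP, eval_add, ev0E, ev0F, add_zero]
  have ev0Q : Q.eval 0 = δ := by rw [hQ, eval_sub, ev0E, ev0F, sub_zero]
  have hP0 : P ≠ 0 := by
    intro h; rw [h, eval_zero] at ev0P; exact hδ0 ev0P.symm
  have hQ0 : Q ≠ 0 := by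
    intro h; rw [h, eval_zero] at ev0Q; exact hδ0 ev0Q.symm
  have ev0hom : ∀ {p : k[X]}, p.natDegree ≤ b → (hom b p P Q).eval 0 = δ ^ b * p.eval 1 := by
    intro p hp
    unfold hom
    rw [eval_finsetSum, ← sum_eq_eval hp, Finset.mul_sum]
    apply Finset.sum_congr rfl
    intro i hi
    rw [Finset.mem_range] at hi
    rw [eval_mul, eval_mul, eval_C, eval_pow, eval_pow, ev0P, ev0Q, one_pow, mul_one]
    have : δ ^ b = δ ^ i * δ ^ (b - i) := by rw [← pow_add]; congr 1; omega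
    rw [this]; ring
  set hf' := hom b f P Q with hhf
  set hg' := hom b g P Q with hhg
  have hf0 : hf' ≠ 0 := by
    intro h
    have := ev0hom hf
    rw [← hhf, h, eval_zero] at this
    exact mul_ne_zero (pow_ne_zero _ hδ0) hf1 this.symm
  have hg0 : hg' ≠ 0 := by
    intro h
    have := ev0hom hg
    rw [← hhg, h, eval_zero] at this
    exact mul_ne_zero (pow_ne_zero _ hδ0) hg1 this.symm
  have ident := hom_identity hf hg hL (P := P) (Q := Q) hQ0
  rw [← hhf, ← hhg] at ident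
  -- numerator and denominator
  set N : k[X] := (P + Q) ^ (2 * b + 1) * (P - Q) with hN
  set D : k[X] := hg' * Q ^ (b + 2) with hD
  have hD0 : D ≠ 0 := mul_ne_zero hg0 (pow_ne_zero _ hQ0)
  have c3 : IsCoprime (P + Q) hg' := by
    have := coprime_hom hg (s := -1) hg2 (P := P) (Q := Q) (by
      rw [C_neg, C_1, neg_mul, one_mul, sub_neg_eq_add]; exact c1)
    rwa [C_neg, C_1, neg_mul, one_mul, sub_neg_eq_add] at this
  have c4 : IsCoprime (P - Q) hg' := by
    have := coprime_hom hg (s := 1) hg1 (P := P) (Q := Q) (by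
      rw [C_1, one_mul]; exact c2)
    rwa [C_1, one_mul] at this
  have cND : IsCoprime N D := by
    rw [hN, hD]
    exact IsCoprime.mul_left
      (IsCoprime.mul_right c3.pow_left c1.pow)
      (IsCoprime.mul_right c4 c2.pow_right)
  have hNeq : N = C ((2 : k) ^ (2 * b + 2)) * (F ^ (2 * b + 1) * E) := by
    rw [hN, hPpQ, hPmQ, C_pow]; ring
  have hc0 : (2 : k) ^ (2 * b + 2) ≠ 0 := pow_ne_zero _ h2k
  have hN0 : N ≠ 0 := by
    rw [hNeq]
    exact mul_ne_zero (C_ne_zero.2 hc0) (mul_ne_zero (pow_ne_zero _ hF0) hE0)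
  have hNd : N.natDegree = (2 * b + 2) * m := by
    rw [hNeq, natDegree_C_mul hc0, natDegree_mul (pow_ne_zero _ hF0) hE0, natDegree_pow, hFd, hEd]
    ring
  have ev0N : N.eval 0 = 0 := by
    rw [hNeq, eval_mul, eval_mul, ev0E, mul_zero, mul_zero]
  have ev0D : D.eval 0 ≠ 0 := by
    rw [hD, eval_mul, eval_pow, ev0Q, hhg, ev0hom hg]
    exact mul_ne_zero (mul_ne_zero (pow_ne_zero _ hδ0) hg1) (pow_ne_zero _ hδ0)
  -- the pair
  have im : ∀ {p : k[X]}, p ≠ 0 → algebraMap k[X] (RatFunc k) p ≠ 0 :=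
    fun h => RatFunc.algebraMap_ne_zero h
  set x : RatFunc k := algebraMap k[X] (RatFunc k) (-hf') / algebraMap k[X] (RatFunc k) hg' with hx
  set y : RatFunc k := algebraMap k[X] (RatFunc k) P / algebraMap k[X] (RatFunc k) Q with hy
  have hx0 : x ≠ 0 := div_ne_zero (im (neg_ne_zero.2 hf0)) (im hg0)
  have hy0 : y ≠ 0 := div_ne_zero (im hP0) (im hQ0)
  have hz : x * y ^ (b + 2) + 1 = algebraMap k[X] (RatFunc k) (-N) / algebraMap k[X] (RatFunc k) D := by
    have e1 : -N = -hf' * P ^ (b + 2) + hg' * Q ^ (b + 2) := by rw [ident]; ring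
    rw [e1, hD, hx, hy]
    simp only [map_add, map_mul, map_neg, map_pow]
    have i1 := im hg0
    have i2 : (algebraMap k[X] (RatFunc k) Q) ^ (b + 2) ≠ 0 := pow_ne_zero _ (im hQ0)
    rw [div_pow, add_comm (-_ * _) _]
    generalize (algebraMap k[X] (RatFunc k)) P ^ (b + 2) = p'
    generalize (algebraMap k[X] (RatFunc k)) Q ^ (b + 2) = q' at i2 ⊢
    field_simp
    ring
  have hcN : IsCoprime (-N) D := cND.neg_left
  have assoc : Associated (x * y ^ (b + 2) + 1).num (-N) := num_assoc hD0 hcN hz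
  have hne0 : x * y ^ (b + 2) + 1 ≠ 0 := by
    rw [hz]; exact div_ne_zero (im (neg_ne_zero.2 hN0)) (im hD0)
  refine ⟨x, y, hx0, hy0, ?_, ?_, ?_, ?_, ?_, ?_⟩
  · intro h1
    rw [h1] at hz
    have h2 : algebraMap k[X] (RatFunc k) (-N) = algebraMap k[X] (RatFunc k) (2 * D) := by
      rw [map_mul]
      rw [eq_div_iff (im hD0)] at hz
      rw [← hz]
      congr 1
      rw [map_ofNat]; norm_num
    have h3 := congrArg (eval 0) (RatFunc.algebraMap_injective k h2)
    rw [eval_neg, ev0N, eval_mul, neg_zero] at h3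
    have h4 : (eval 0 (2 : k[X])) = 2 := by simp
    rw [h4] at h3
    exact mul_ne_zero h2k ev0D h3.symm
  · intro h1
    rw [h1] at hne0
    exact hne0 (by ring)
  · refine ht_le_of hg0 (a := -hf') (d := hg') ?_ (hom_natDegree g hPd hQd) hx hx0
    rw [natDegree_neg]; exact hom_natDegree f hPd hQd
  · exact ht_le_of hQ0 hPd hQd hy hy0
  · unfold numDeg
    rw [natDegree_of_assoc assoc, natDegree_neg, hNd]
  · refine radDeg_le_two (neg_ne_zero.2 hN0) assoc (n := (2 * b + 1) * m + m) ?_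
    rw [neg_dvd, hNeq]
    have h5 : IsUnit (C ((2 : k) ^ (2 * b + 2))) := isUnit_C.2 (isUnit_iff_ne_zero.2 hc0)
    rw [h5.mul_left_dvd, mul_pow]
    have h6 : F ^ (2 * b + 1) ∣ (X - 1) ^ ((2 * b + 1) * m + m) := by
      rw [hF, ← pow_mul]
      exact pow_dvd_pow _ (by nlinarith)
    have h7 : E ∣ X ^ ((2 * b + 1) * m + m) := pow_dvd_pow _ (by omega)
    rw [mul_comm (F ^ _) E]
    exact mul_dvd_mul h7 h6

end H488.PF
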