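import Pool.Agent.H488.PF.Region

/-!
# The extremal pairs: a binomial identity and its homogeneous form
-/

set_option autoImplicit false
set_option linter.unusedSectionVars false

namespace H488.PF

open Polynomial UniqueFactorizationMonoid

variable {k : Type*} [Field k] [DecidableEq k]

/-- the polynomial `(X + 1) ^ (2 b + 1) (X - 1)` -/
noncomputable def L (k : Type*) [Field k] (b : ℕ) : k[X] := (X + 1) ^ (2 * b + 1) * (X - 1)

lemma coeff_pow_mul (n i : ℕ) : ((X + 1 : k[X]) ^ n * (X - 1)).coeff (i + 1)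
    = (n.choose i : k) - (n.choose (i + 1) : k) := by
  rw [mul_sub, mul_one, coeff_sub, coeff_mul_X, coeff_X_add_one_pow, coeff_X_add_one_pow]

lemma L_monic_degree (b : ℕ) : (L k b).natDegree ≤ 2 * b + 2 := by
  unfold L
  refine natDegree_mul_le.trans ?_
  have h1 : ((X + 1 : k[X]) ^ (2 * b + 1)).natDegree ≤ (2 * b + 1) * 1 := by
    refine natDegree_pow_le.trans (Nat.mul_le_mul_left _ ?_)
    have : (X + 1 : k[X]) = X + C 1 := by simp
    rw [this]; exact natDegree_X_add_C 1 |>.le
  have h2 : (X - 1 : k[X]).natDegree ≤ 1 := by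
    have : (X - 1 : k[X]) = X - C 1 := by simp
    rw [this]; exact natDegree_X_sub_C 1 |>.le
  omega

/-- `(X + 1) ^ (2 b + 1) (X - 1) = X ^ (b + 2) f - g` with `f, g` of degree at most `b`,
`f(1), g(1), g(-1)` nonzero. -/
theorem exists_forms [CharZero k] (b : ℕ) : ∃ f g : k[X], f.natDegree ≤ b ∧ g.natDegree ≤ b ∧
    L k b = X ^ (b + 2) * f - g ∧ f.eval 1 ≠ 0 ∧ g.eval 1 ≠ 0 ∧ g.eval (-1) ≠ 0 := by
  have hmon : (X ^ (b + 2) : k[X]).Monic := monic_X_pow _
  set f := L k b /ₘ X ^ (b + 2) with hf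
  set g := -(L k b %ₘ X ^ (b + 2)) with hg
  have hL : L k b = X ^ (b + 2) * f - g := by
    rw [hf, hg, sub_neg_eq_add, add_comm]
    exact (modByMonic_add_div (L k b) (X ^ (b + 2))).symm
  have hfd : f.natDegree ≤ b := by
    rw [hf, natDegree_divByMonic _ hmon, natDegree_X_pow]
    have := L_monic_degree (k := k) b
    omega
  have hgd1 : g.natDegree < b + 2 := by
    rw [hg, natDegree_neg]
    have := natDegree_modByMonic_lt (L k b) hmon (by
      intro h
      have := congrArg natDegree h
      rw [natDegree_X_pow, natDegree_one] at this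
      omega)
    rwa [natDegree_X_pow] at this
  have hgc : g.coeff (b + 1) = 0 := by
    have h1 : (L k b).coeff (b + 1) = 0 := by
      unfold L
      rw [coeff_pow_mul]
      have : (2 * b + 1).choose (b + 1) = (2 * b + 1).choose b := Nat.choose_symm_half b
      rw [this, sub_self]
    rw [hL, coeff_sub, coeff_X_pow_mul'] at h1
    simp only [show ¬ (b + 2 ≤ b + 1) by omega, if_false, zero_sub, neg_eq_zero] at h1
    exact h1
  have hgd : g.natDegree ≤ b := by
    rw [natDegree_le_iff_coeff_eq_zero]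
    intro i hi
    rcases Nat.lt_or_ge i (b + 2) with h | h
    · have : i = b + 1 := by omega
      rw [this]; exact hgc
    · exact coeff_eq_zero_of_natDegree_lt (lt_of_lt_of_le hgd1 h)
  have e1 : (L k b).eval 1 = f.eval 1 - g.eval 1 := by rw [hL]; simp
  have e1' : (L k b).eval 1 = 0 := by unfold L; simp
  have hfg1 : f.eval 1 = g.eval 1 := by rw [e1'] at e1; exact (sub_eq_zero.1 e1.symm)
  have e2 : (L k b).eval (-1) = (-1) ^ (b + 2) * f.eval (-1) - g.eval (-1) := by rw [hL]; simp
  have e2' : (L k b).eval (-1) = 0 := by unfold L; simp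
  have hg1 : g.eval 1 ≠ 0 := by
    intro h
    have hf1 : f.eval 1 = 0 := hfg1.trans h
    obtain ⟨f1, hf1'⟩ := dvd_iff_isRoot.2 hf1
    obtain ⟨g1, hg1'⟩ := dvd_iff_isRoot.2 h
    have hX : (X - C 1 : k[X]) ≠ 0 := X_sub_C_ne_zero 1
    have key : (X + 1 : k[X]) ^ (2 * b + 1) = X ^ (b + 2) * f1 - g1 := by
      apply mul_left_cancel₀ hX
      have : (X - C 1) * (X + 1 : k[X]) ^ (2 * b + 1) = L k b := by
        unfold L; rw [C_1]; ring
      rw [this, hL, hf1', hg1']; ring
    have hd : g1.natDegree < b ∨ g1 = 0 := by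
      by_cases h0 : g1 = 0
      · exact Or.inr h0
      · left
        have := hgd
        rw [hg1', natDegree_mul hX h0, natDegree_X_sub_C] at this
        omega
    have hc : g1.coeff b = 0 := by
      rcases hd with h | h
      · exact coeff_eq_zero_of_natDegree_lt h
      · rw [h, coeff_zero]
    have h3 := congrArg (fun p => coeff p b) key
    rw [coeff_X_add_one_pow, coeff_sub, coeff_X_pow_mul', hc] at h3
    simp only [show ¬ (b + 2 ≤ b) by omega, if_false, sub_zero] at h3
    have h4 : (2 * b + 1).choose b ≠ 0 := (Nat.choose_pos (by omega)).ne'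
    exact h4 (by exact_mod_cast h3)
  refine ⟨f, g, hfd, hgd, hL, hfg1 ▸ hg1, hg1, ?_⟩
  intro h
  have hf1 : f.eval (-1) = 0 := by
    rw [e2', h, sub_zero] at e2
    rcases mul_eq_zero.1 e2.symm with h5 | h5
    · exact absurd h5 (pow_ne_zero _ (neg_ne_zero.2 one_ne_zero))
    · exact h5
  obtain ⟨f1, hf1'⟩ := dvd_iff_isRoot.2 hf1
  obtain ⟨g1, hg1'⟩ := dvd_iff_isRoot.2 h
  have hX : (X - C (-1) : k[X]) ≠ 0 := X_sub_C_ne_zero (-1)
  have key : (X + 1 : k[X]) ^ (2 * b) * (X - 1) = X ^ (b + 2) * f1 - g1 := by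
    apply mul_left_cancel₀ hX
    have : (X - C (-1)) * ((X + 1 : k[X]) ^ (2 * b) * (X - 1)) = L k b := by
      unfold L; rw [C_neg, C_1]; ring
    rw [this, hL, hf1', hg1']; ring
  have hd : g1.natDegree < b ∨ g1 = 0 := by
    by_cases h0 : g1 = 0
    · exact Or.inr h0
    · left
      have := hgd
      rw [hg1', natDegree_mul hX h0, natDegree_X_sub_C] at this
      omega
  have hc : g1.coeff b = 0 := by
    rcases hd with h | h
    · exact coeff_eq_zero_of_natDegree_lt h
    · rw [h, coeff_zero]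
  have h3 := congrArg (fun p => coeff p b) key
  rw [coeff_sub, coeff_X_pow_mul', hc] at h3
  simp only [show ¬ (b + 2 ≤ b) by omega, if_false, sub_zero] at h3
  cases b with
  | zero => simp at h3
  | succ c =>
    rw [coeff_pow_mul, sub_eq_zero] at h3
    have h4 : (2 * (c + 1)).choose c = (2 * (c + 1)).choose (c + 1) := by exact_mod_cast h3
    have h5 : (2 * (c + 1)).choose c * (2 * (c + 1) - c) = (2 * (c + 1)).choose (c + 1) * (c + 1) :=
      (Nat.choose_succ_right_eq _ _).symm
    rw [← h4] at h5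
    have h6 : 0 < (2 * (c + 1)).choose c := Nat.choose_pos (by omega)
    have h7 := Nat.eq_of_mul_eq_mul_left h6 h5
    omega

end H488.PF
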