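import Pool.Agent.H488.PF.Examples

/-!
# Necessary conditions for the constants
-/

set_option autoImplicit false
set_option linter.unusedSectionVars false

namespace H488.PF

open Polynomial UniqueFactorizationMonoid

variable {k : Type*} [Field k] [DecidableEq k]

/-- Philippon's inequality holds over `k(t)` with the constants `B, α, β, ε`. -/
def Holds (k : Type*) [Field k] [DecidableEq k] (B : ℕ) (α β ε : ℝ) : Prop :=
  ∀ x y : RatFunc k, x ≠ 0 → y ≠ 0 → x * y ^ B ≠ 1 → x * y ^ B ≠ -1 → Ineq B α β ε x y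

lemma arch {l c K : ℝ} (h : ∀ n : ℕ, ∃ m : ℕ, n ≤ m ∧ l * m ≤ c * m + K) : l ≤ c := by
  by_contra hlt
  push Not at hlt
  have h0 : 0 < l - c := by linarith
  obtain ⟨n, hn⟩ := exists_nat_gt (K / (l - c))
  obtain ⟨m, hm, hm'⟩ := h n
  have h1 : K / (l - c) < m := hn.trans_le (by exact_mod_cast hm)
  rw [div_lt_iff₀ h0] at h1
  nlinarith

/-- the use of a family of pairs -/
lemma le_of_family {B : ℕ} {α β ε : ℝ} (hα : 0 ≤ α) (hε : 0 ≤ ε) (H : Holds k B α β ε)
    {l a c R : ℕ} (h : ∀ n : ℕ, ∃ m : ℕ, n ≤ m ∧ ∃ x y : RatFunc k, x ≠ 0 ∧ y ≠ 0 ∧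
      x * y ^ B ≠ 1 ∧ x * y ^ B ≠ -1 ∧ ht x ≤ a * m ∧ ht y ≤ c * m ∧
      l * m ≤ numDeg (x * y ^ B + 1) ∧ radDeg (x * y ^ B + 1) ≤ R) :
    (l : ℝ) ≤ α * B * a + ε * B * c := by
  apply arch (K := B * (α * B + ε) * (β + R))
  intro n
  obtain ⟨m, hm, x, y, hx, hy, h1, h2, h3, h4, h5, h6⟩ := h n
  refine ⟨m, hm, ?_⟩
  have hI := H x y hx hy h1 h2
  unfold Ineq at hI
  have h3' : (ht x : ℝ) ≤ a * m := by exact_mod_cast h3
  have h4' : (ht y : ℝ) ≤ c * m := by exact_mod_cast h4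
  have h5' : (l : ℝ) * m ≤ numDeg (x * y ^ B + 1) := by exact_mod_cast h5
  have h6' : (radDeg (x * y ^ B + 1) : ℝ) ≤ R := by exact_mod_cast h6
  have hB : (0 : ℝ) ≤ B := Nat.cast_nonneg _
  have f1 : α * B * ht x ≤ α * B * (a * m) :=
    mul_le_mul_of_nonneg_left h3' (mul_nonneg hα hB)
  have f2 : ε * B * ht y ≤ ε * B * (c * m) :=
    mul_le_mul_of_nonneg_left h4' (mul_nonneg hε hB)
  have f3 : B * (α * B + ε) * (β + radDeg (x * y ^ B + 1)) ≤ B * (α * B + ε) * (β + R) :=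
    mul_le_mul_of_nonneg_left (by linarith)
      (mul_nonneg hB (add_nonneg (mul_nonneg hα hB) hε))
  calc (l : ℝ) * m ≤ α * B * (a * m) + ε * B * (c * m) + B * (α * B + ε) * (β + R) := by linarith
    _ = _ := by ring

lemma ht_one : ht (1 : RatFunc k) = 0 := by
  unfold ht
  rw [RatFunc.num_one, RatFunc.denom_one, natDegree_one, max_self]

lemma ht_poly (p : k[X]) : ht (algebraMap k[X] (RatFunc k) p) = p.natDegree := by
  unfold ht
  rw [RatFunc.num_algebraMap, RatFunc.denom_algebraMap, natDegree_one]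
  exact max_eq_left (Nat.zero_le _)

/-- `t ^ m - 1` for `m ≥ 1` -/
lemma pow_sub_one {m : ℕ} (hm : 0 < m) : ((X : k[X]) ^ m - 1).natDegree = m ∧
    (algebraMap k[X] (RatFunc k) (X ^ m - 1)) ≠ 0 ∧ (algebraMap k[X] (RatFunc k) (X ^ m - 1)) ≠ 1 ∧
    (algebraMap k[X] (RatFunc k) (X ^ m - 1)) ≠ -1 ∧
    numDeg (algebraMap k[X] (RatFunc k) (X ^ m - 1) + 1) = m ∧
    radDeg (algebraMap k[X] (RatFunc k) (X ^ m - 1) + 1) ≤ 1 := by
  have hd : ((X : k[X]) ^ m - 1).natDegree = m := by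
    have := natDegree_X_pow_sub_C (R := k) (n := m) (r := 1)
    rwa [C_1] at this
  have hne : ∀ c : k, ((X : k[X]) ^ m - 1) ≠ C c := by
    intro c h
    rw [h, natDegree_C] at hd
    omega
  have e1 : algebraMap k[X] (RatFunc k) (X ^ m - 1) + 1 = algebraMap k[X] (RatFunc k) (X ^ m) := by
    rw [map_sub, map_one]; ring
  refine ⟨hd, ?_, ?_, ?_, ?_, ?_⟩
  · intro h
    rw [← map_zero (algebraMap k[X] (RatFunc k))] at h
    exact hne 0 (by rw [C_0]; exact RatFunc.algebraMap_injective k h)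
  · intro h
    rw [← map_one (algebraMap k[X] (RatFunc k))] at h
    exact hne 1 (by rw [C_1]; exact RatFunc.algebraMap_injective k h)
  · intro h
    rw [← map_one (algebraMap k[X] (RatFunc k)), ← map_neg] at h
    exact hne (-1) (by rw [C_neg, C_1]; exact RatFunc.algebraMap_injective k h)
  · unfold numDeg
    rw [e1, RatFunc.num_algebraMap, natDegree_X_pow]
  · unfold radDeg
    rw [e1, RatFunc.num_algebraMap]
    have h1 : radical ((X : k[X]) ^ m) ∣ X := (radical_pow_dvd).trans radical_dvd_self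
    have h2 := natDegree_le_of_dvd h1 X_ne_zero
    rwa [natDegree_X] at h2

theorem necessary_alpha {B : ℕ} {α β ε : ℝ} (hα : 0 ≤ α) (hε : 0 ≤ ε) (H : Holds k B α β ε) :
    1 ≤ α * B := by
  have := le_of_family hα hε H (l := 1) (a := 1) (c := 0) (R := 1) (fun n =>
    ⟨n + 1, Nat.le_succ n, algebraMap k[X] (RatFunc k) (X ^ (n + 1) - 1), 1, by
      obtain ⟨hd, h0, h1, h2, h3, h4⟩ := pow_sub_one (k := k) (Nat.succ_pos n)
      rw [one_pow, mul_one]
      refine ⟨h0, one_ne_zero, h1, h2, ?_, ?_, ?_, h4⟩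
      · rw [ht_poly, one_mul]; exact hd.le
      · rw [ht_one]; exact Nat.zero_le _
      · rw [one_mul]; exact h3.ge⟩)
  push_cast at this
  linarith

theorem necessary_one {α β ε : ℝ} (hα : 0 ≤ α) (hε : 0 ≤ ε) (H : Holds k 1 α β ε) :
    1 ≤ ε := by
  have := le_of_family hα hε H (l := 1) (a := 0) (c := 1) (R := 1) (fun n =>
    ⟨n + 1, Nat.le_succ n, 1, algebraMap k[X] (RatFunc k) (X ^ (n + 1) - 1), by
      obtain ⟨hd, h0, h1, h2, h3, h4⟩ := pow_sub_one (k := k) (Nat.succ_pos n)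
      rw [pow_one, one_mul]
      refine ⟨one_ne_zero, h0, h1, h2, ?_, ?_, ?_, h4⟩
      · rw [ht_one]; exact Nat.zero_le _
      · rw [ht_poly, one_mul]; exact hd.le
      · rw [one_mul]; exact h3.ge⟩)
  push_cast at this
  linarith

theorem necessary_char_zero [CharZero k] {B : ℕ} (hB : 2 ≤ B) {α β ε : ℝ} (hα : 0 ≤ α)
    (hε : 0 ≤ ε) (H : Holds k B α β ε) : 2 * ((B : ℝ) - 1) ≤ α * B * (B - 2) + ε * B := by
  obtain ⟨b, rfl⟩ : ∃ b, B = b + 2 := ⟨B - 2, by omega⟩
  have := le_of_family hα hε H (l := 2 * b + 2) (a := b) (c := 1) (R := 2) (fun n => by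
    obtain ⟨x, y, h1, h2, h3, h4, h5, h6, h7, h8⟩ := extremal (k := k) b (Nat.succ_pos n)
    exact ⟨n + 1, Nat.le_succ n, x, y, h1, h2, h3, h4, h5, by rw [one_mul]; exact h6, h7.ge, h8⟩)
  push_cast at this ⊢
  linarith

theorem necessary_char_p (p : ℕ) [hp : Fact p.Prime] [CharP k p] {B : ℕ} (hB : 0 < B) {α β ε : ℝ}
    (hα : 0 ≤ α) (hε : 0 ≤ ε) (H : Holds k B α β ε) : 1 ≤ ε := by
  have hp1 : 1 < p := hp.out.one_lt
  have := le_of_family hα hε H (l := B) (a := 0) (c := 1) (R := B) (fun n => by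
    set q := p ^ n with hq
    have hq0 : 0 < q := pow_pos (by omega) _
    refine ⟨q, (Nat.lt_pow_self hp1).le, 1, algebraMap k[X] (RatFunc k) (X ^ q), ?_⟩
    have hd : ((X : k[X]) ^ (q * B)).natDegree = q * B := natDegree_X_pow _
    have hqB : 0 < q * B := Nat.mul_pos hq0 hB
    have hne : ∀ c : k, ((X : k[X]) ^ (q * B)) ≠ C c := by
      intro c h
      rw [h, natDegree_C] at hd
      omega
    have e0 : (1 : RatFunc k) * (algebraMap k[X] (RatFunc k) (X ^ q)) ^ B
        = algebraMap k[X] (RatFunc k) (X ^ (q * B)) := by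
      rw [one_mul, ← map_pow, ← pow_mul]
    have e1 : algebraMap k[X] (RatFunc k) (X ^ (q * B)) + 1
        = algebraMap k[X] (RatFunc k) ((X ^ B + 1) ^ q) := by
      have : ((X : k[X]) ^ B + 1) ^ q = X ^ (q * B) + 1 := by
        rw [hq, add_pow_char_pow, one_pow, ← pow_mul, mul_comm]
      rw [this, map_add, map_one]
    have hXB : ((X : k[X]) ^ B + 1).natDegree = B := by
      have := natDegree_X_pow_add_C (R := k) (n := B) (r := 1)
      rwa [C_1] at this
    have hXB0 : ((X : k[X]) ^ B + 1) ≠ 0 := by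
      intro h
      rw [h, natDegree_zero] at hXB
      omega
    rw [e0]
    refine ⟨one_ne_zero, RatFunc.algebraMap_ne_zero (pow_ne_zero _ X_ne_zero), ?_, ?_, ?_, ?_, ?_, ?_⟩
    · intro h
      rw [← map_one (algebraMap k[X] (RatFunc k))] at h
      exact hne 1 (by rw [C_1]; exact RatFunc.algebraMap_injective k h)
    · intro h
      rw [← map_one (algebraMap k[X] (RatFunc k)), ← map_neg] at h
      exact hne (-1) (by rw [C_neg, C_1]; exact RatFunc.algebraMap_injective k h)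
    · rw [ht_one]; exact Nat.zero_le _
    · rw [ht_poly, natDegree_X_pow, one_mul]
    · unfold numDeg
      rw [e1, RatFunc.num_algebraMap, natDegree_pow, hXB, mul_comm]
    · unfold radDeg
      rw [e1, RatFunc.num_algebraMap]
      have h1 : radical (((X : k[X]) ^ B + 1) ^ q) ∣ (X : k[X]) ^ B + 1 :=
        (radical_pow_dvd).trans radical_dvd_self
      exact (natDegree_le_of_dvd h1 hXB0).trans hXB.le)
  have hB' : (0 : ℝ) < B := by exact_mod_cast hB
  push_cast at this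
  by_contra hlt
  push Not at hlt
  nlinarith

end H488.PF
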