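import Pool.Agent.H488.PF.Core

/-!
# The admissible constants of Philippon's inequality over `k(t)`
-/

set_option autoImplicit false
set_option linter.unusedSectionVars false

namespace H488.PF

open Polynomial UniqueFactorizationMonoid

variable {k : Type*} [Field k] [DecidableEq k]

/-- the trivial case `ε ≥ 1` -/
theorem ineq_of_one_le {B : ℕ} (hB : 0 < B) {α ε : ℝ} (hα : 1 ≤ α * B) (hε : 1 ≤ ε)
    {x y : RatFunc k} (hx : x ≠ 0) (hy : y ≠ 0) : Ineq B α 0 ε x y := by
  unfold Ineq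
  have h1 : (numDeg (x * y ^ B + 1) : ℝ) ≤ ht x + B * ht y := by
    exact_mod_cast (numDeg_le _).trans (ht_mul_pow_le B hx hy)
  have hB' : (1 : ℝ) ≤ B := by exact_mod_cast hB
  have hX : (0 : ℝ) ≤ ht x := Nat.cast_nonneg _
  have hY : (0 : ℝ) ≤ ht y := Nat.cast_nonneg _
  have hr : (0 : ℝ) ≤ radDeg (x * y ^ B + 1) := Nat.cast_nonneg _
  have h2 : (ht x : ℝ) ≤ α * B * ht x := by
    nlinarith
  have h3 : (B : ℝ) * ht y ≤ ε * B * ht y := by
    have : (B : ℝ) * ht y ≤ ε * (B * ht y) := by nlinarith [mul_nonneg (zero_le_one.trans hB') hY]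
    linarith
  have h5 : (0 : ℝ) ≤ α * B + ε := by linarith
  have h4 : (0 : ℝ) ≤ B * (α * B + ε) * (0 + radDeg (x * y ^ B + 1)) := by positivity
  linarith

/-- the inequality in the region `B ≥ 3`, `α B ≥ 1`, `α B (B - 2) + ε B ≥ 2 (B - 1)`, for the pairs
with a nonzero derivative -/
theorem ineq_of_region {B : ℕ} (hB : 3 ≤ B) {α ε : ℝ} (hα : 1 ≤ α * B) (hε : 0 ≤ ε)
    (hreg : 2 * ((B : ℝ) - 1) ≤ α * B * (B - 2) + ε * B)
    {x y : RatFunc k} (hx : x ≠ 0) (hy : y ≠ 0) (hne : x * y ^ B ≠ -1)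
    (hsep : derivative (x * y ^ B).num ≠ 0 ∨ derivative (x * y ^ B).denom ≠ 0) :
    Ineq B α 0 ε x y := by
  obtain ⟨b, rfl⟩ : ∃ b, B = b + 1 := ⟨B - 1, by omega⟩
  have main := main_ineq b hx hy hne hsep
  have h1 := numDeg_le (x * y ^ (b + 1))
  have h2 := ht_mul_pow_le (b + 1) hx hy
  unfold Ineq
  set z := x * y ^ (b + 1) with hz
  have main' : ((b : ℝ) + 1) * ((ht z : ℝ) + 1) ≤ 2 * ht z + 2 * b * ht x
      + ((b : ℝ) + 1) * radDeg (z + 1) := by exact_mod_cast main
  have h1' : (numDeg (z + 1) : ℝ) ≤ ht z := by exact_mod_cast h1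
  have h2' : (ht z : ℝ) ≤ ht x + ((b : ℝ) + 1) * ht y := by exact_mod_cast h2
  have hb : (2 : ℝ) ≤ b := by
    have : 2 ≤ b := by omega
    exact_mod_cast this
  push_cast at hα hreg ⊢
  have hX : (0 : ℝ) ≤ ht x := Nat.cast_nonneg _
  have hY : (0 : ℝ) ≤ ht y := Nat.cast_nonneg _
  have hr : (0 : ℝ) ≤ radDeg (z + 1) := Nat.cast_nonneg _
  generalize (numDeg (z + 1) : ℝ) = n at *
  generalize (ht z : ℝ) = M at *
  generalize (ht x : ℝ) = A at *
  generalize (ht y : ℝ) = Y at *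
  generalize (radDeg (z + 1) : ℝ) = r at *
  set C : ℝ := (b : ℝ) + 1 with hC
  set a : ℝ := α * C with ha
  have hC1 : b - 1 = C - 2 := by rw [hC]; ring
  have hC3 : (1 : ℝ) ≤ C - 2 := by rw [hC]; linarith
  have hR : C * r ≤ (C - 2) * (C * (a + ε) * (0 + r)) := by
    have e1 : C * r ≤ C * (a + ε) * r := by
      have : (1 : ℝ) ≤ a + ε := by linarith
      have hCr : (0 : ℝ) ≤ C * r := by positivity
      nlinarith
    have e2 : 0 ≤ C * (a + ε) * r := by
      have : (0 : ℝ) ≤ a + ε := by linarith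
      positivity
    rw [zero_add]
    nlinarith
  have hb2 : (b : ℝ) = C - 1 := by rw [hC]; ring
  rw [hb2] at main'
  have key : (C - 2) * n ≤ (C - 2) * (a * A + ε * C * Y + C * (a + ε) * (0 + r)) := by
    rcases le_total A ((C - 2) * Y) with hA | hA
    · -- A ≤ (C - 2) Y
      have e1 : (C - 2) * n ≤ (C - 2) * M := by nlinarith
      have e2 : (C - 2) * M ≤ 2 * (C - 1) * A + C * r := by nlinarith
      have e3 : 2 * (C - 1) * A ≤ (a * (C - 2) + ε * C) * A := by
        have : 2 * (C - 1) ≤ a * (C - 2) + ε * C := by linarith [hreg]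
        nlinarith
      have e4 : (a * (C - 2) + ε * C) * A ≤ (C - 2) * (a * A + ε * C * Y) := by
        have : ε * C * A ≤ ε * C * ((C - 2) * Y) := by
          apply mul_le_mul_of_nonneg_left hA; positivity
        nlinarith
      nlinarith
    · have e0 : n ≤ A + C * Y := by linarith
      have e1 : A + C * Y ≤ a * A + ε * C * Y := by
        have f1 : (a - 1) * ((C - 2) * Y) ≤ (a - 1) * A :=
          mul_le_mul_of_nonneg_left hA (by linarith)
        have f2 : 0 ≤ Y * (a * (C - 2) + ε * C - 2 * (C - 1)) :=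
          mul_nonneg hY (by linarith [hreg])
        nlinarith
      have e2 : (0 : ℝ) ≤ C * (a + ε) * (0 + r) := by
        have : (0 : ℝ) ≤ a + ε := by linarith
        rw [zero_add]; positivity
      have e3 : n ≤ a * A + ε * C * Y + C * (a + ε) * (0 + r) := by linarith
      exact mul_le_mul_of_nonneg_left e3 (by linarith)
  exact le_of_mul_le_mul_left key (by linarith)

/-- In characteristic zero the case of constant `x y ^ B` is trivial. -/
theorem ineq_of_region_char_zero [CharZero k] {B : ℕ} (hB : 3 ≤ B) {α ε : ℝ} (hα : 1 ≤ α * B)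
    (hε : 0 ≤ ε) (hreg : 2 * ((B : ℝ) - 1) ≤ α * B * (B - 2) + ε * B)
    {x y : RatFunc k} (hx : x ≠ 0) (hy : y ≠ 0) (hne : x * y ^ B ≠ -1) :
    Ineq B α 0 ε x y := by
  by_cases hsep : derivative (x * y ^ B).num ≠ 0 ∨ derivative (x * y ^ B).denom ≠ 0
  · exact ineq_of_region hB hα hε hreg hx hy hne hsep
  · push Not at hsep
    have h1 := derivative_eq_zero.1 hsep.1
    have h2 := derivative_eq_zero.1 hsep.2
    have h3 : ht (x * y ^ B) = 0 := by unfold ht; rw [h1, h2]; rfl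
    have h4 : numDeg (x * y ^ B + 1) = 0 := Nat.le_zero.1 (h3 ▸ numDeg_le _)
    unfold Ineq
    rw [h4]
    have hX : (0 : ℝ) ≤ ht x := Nat.cast_nonneg _
    have hY : (0 : ℝ) ≤ ht y := Nat.cast_nonneg _
    have hr : (0 : ℝ) ≤ radDeg (x * y ^ B + 1) := Nat.cast_nonneg _
    have hB' : (0 : ℝ) ≤ B := Nat.cast_nonneg _
    have f1 : (0 : ℝ) ≤ α * B * ht x := mul_nonneg (by linarith) hX
    have f2 : (0 : ℝ) ≤ ε * B * ht y := by positivity
    have f3 : (0 : ℝ) ≤ B * (α * B + ε) * (0 + radDeg (x * y ^ B + 1)) := by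
      apply mul_nonneg (mul_nonneg hB' (by linarith))
      rw [zero_add]; exact hr
    push_cast
    linarith

/-- the admissible triples with `α ≥ 1` satisfy the conditions of the region -/
lemma region_of {B : ℕ} {α ε : ℝ} (hα : 1 ≤ α) (hε : 0 ≤ ε)
    (h : 4 ≤ B ∨ (B = 3 ∧ 4 / 3 ≤ α + ε)) :
    3 ≤ B ∧ 1 ≤ α * B ∧ 2 * ((B : ℝ) - 1) ≤ α * B * (B - 2) + ε * B := by
  rcases h with h | ⟨h, h'⟩
  · have h4 : (4 : ℝ) ≤ B := by exact_mod_cast h
    refine ⟨by omega, by nlinarith, ?_⟩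
    have e1 : (B : ℝ) * (B - 2) ≤ α * (B * (B - 2)) := by
      have : (0 : ℝ) ≤ B * (B - 2) := mul_nonneg (by linarith) (by linarith)
      nlinarith
    have e2 : 0 ≤ ε * B := by positivity
    nlinarith
  · subst h
    refine ⟨le_rfl, by push_cast; linarith, ?_⟩
    push_cast
    linarith

end H488.PF
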